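import Mathlib
import Pool.Agent.W307.RT.Main6
import Pool.Agent.V7H45.CL
import Pool.Agent.V7H45.CP

/-!
# The average of `2 ^ rank` in one-parameter families of elliptic curves

Families `y² = x (x - F₀(u, v)) (x - F₁(u, v))`, where `F₀`, `F₁` and `F₂ = F₀ - F₁` are binary
forms of even degree that are products of linear forms with integer coefficients. Under a balance
condition on the numbers of the linear factors of the three forms, the average of `2 ^ rank` over
all the rational values of the parameter `u / v`, ordered by height, is bounded.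
-/

namespace Pool.Agent.Results.MP_788af2_nt.SplitFamiliesH45

open Finset

/-- The data of a family: `n` linear forms `α j * u + β j * v`, the class `c j` and the multiplicity
`μ j` of each of them, and three constants. -/
structure Data (n : ℕ) where
  /-- the first coefficients -/
  α : Fin n → ℤ
  /-- the second coefficients -/
  β : Fin n → ℤ
  /-- the classes -/
  c : Fin n → Fin 3
  /-- the multiplicities -/
  μ : Fin n → ℕ
  /-- the constants -/
  a : Fin 3 → ℤ

/-- The linear forms of the class `k`. -/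
def Data.cl {n : ℕ} (D : Data n) (k : Fin 3) : Finset (Fin n) := univ.filter (fun j => D.c j = k)

/-- The binary form `F_k(u, v) = a_k * ∏_{j in class k} (α_j u + β_j v) ^ μ_j`. -/
def Data.F {n : ℕ} (D : Data n) (k : Fin 3) (u v : ℤ) : ℤ :=
  D.a k * ∏ j ∈ D.cl k, (D.α j * u + D.β j * v) ^ D.μ j

/-- The number `κ_j`: at the zero `(-β_j, α_j)` of the `j`-th linear form the curve
`y² = x (x - F₀) (x - F₁)` has a node, with tangent directions of slopes `± √κ_j`. -/
def Data.node {n : ℕ} (D : Data n) (j : Fin n) : ℤ :=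
  if D.c j = 0 then -D.F 1 (-D.β j) (D.α j)
  else if D.c j = 1 then -D.F 0 (-D.β j) (D.α j)
  else D.F 0 (-D.β j) (D.α j)

open Classical in
/-- The linear forms of the class `k` whose node has rational tangent directions. -/
noncomputable def Data.split {n : ℕ} (D : Data n) (k : Fin 3) : Finset (Fin n) :=
  (D.cl k).filter (fun j => IsSquare (D.node j))

/-- The curve `y² = x (x - A) (x - B)`. -/
def curve (A B : ℤ) : WeierstrassCurve ℚ := ⟨0, -((A : ℚ) + B), 0, (A : ℚ) * B, 0⟩

/-- The Mordell-Weil rank of the curve of the family at `(u, v)`. -/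
noncomputable def Data.rank {n : ℕ} (D : Data n) (t : ℤ × ℤ) : ℕ :=
  Module.finrank ℤ (curve (D.F 0 t.1 t.2) (D.F 1 t.1 t.2)).toAffine.Point

open Classical in
/-- The parameters of height at most `T`: the pairs of coprime integers `u`, `v` of absolute value at
most `T` for which the curve is nonsingular. -/
noncomputable def Data.Par {n : ℕ} (D : Data n) (T : ℕ) : Finset (ℤ × ℤ) :=
  (Icc (-(T : ℤ)) T ×ˢ Icc (-(T : ℤ)) T).filter (fun t : ℤ × ℤ =>
    IsCoprime t.1 t.2 ∧ ∀ k, D.F k t.1 t.2 ≠ 0)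

/-- The conditions on the family. -/
structure Data.Good {n : ℕ} (D : Data n) : Prop where
  /-- there is at least one linear form -/
  pos : 0 < n
  /-- the constants are not zero -/
  a_ne : ∀ k, D.a k ≠ 0
  /-- the multiplicities are positive -/
  mu_pos : ∀ j, 1 ≤ D.μ j
  /-- the linear forms are pairwise not proportional -/
  nonprop : ∀ i j, i ≠ j → D.α i * D.β j ≠ D.α j * D.β i
  /-- `F₀ - F₁ = F₂` -/
  ident : ∀ u v, D.F 0 u v - D.F 1 u v = D.F 2 u v
  /-- the degrees are even -/
  even : ∀ k, Even (∑ j ∈ D.cl k, D.μ j)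
  /-- an even multiplicity is allowed only where the tangent directions are rational -/
  mult : ∀ j, Odd (D.μ j) ∨ IsSquare (D.node j)
  /-- the balance condition -/
  balance : ∀ k, 2 * (D.cl k).card + (D.split k).card ≤ n

section

open Pool.Agent.W262.RK Pool.Agent.W307.RT

variable {n : ℕ} (D : Data n)

/-- the classes in the notation of the library -/
def ks (j : Fin n) : Fin 4 := (D.c j).castSucc

lemma fc_ks (k : Fin 3) : fc (ks D) k = D.cl k := by
  unfold fc Data.cl ks
  apply filter_congr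
  intro j _
  exact ⟨fun h => Fin.castSucc_injective _ h, fun h => by rw [h]⟩

/-- the shifted coefficients -/
def αq (q : ℕ) (j : Fin n) : ℤ := D.α j + q * D.β j

lemma FM_q (q : ℕ) (k : Fin 3) (u v : ℤ) :
    FM (ks D) D.a D.μ (fv (αq D q) D.β u v) k = D.F k u (v + q * u) := by
  unfold FM Data.F
  rw [fc_ks]
  congr 1
  apply prod_congr rfl
  intro j _
  unfold fv αq
  congr 1
  ring

lemma Res_q (q : ℕ) (j l : Fin n) :
    Res (αq D q) D.β j l = D.α j * D.β l - D.α l * D.β j := by
  unfold Res αq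
  ring

lemma kap_q (q : ℕ) (j : Fin n) : kapM (ks D) D.a D.μ (αq D q) D.β j = D.node j := by
  have h1 : ∀ k : Fin 3, D.a k * ∏ l ∈ fc (ks D) k, Res (αq D q) D.β j l ^ D.μ l =
      D.F k (-D.β j) (D.α j) := by
    intro k
    unfold Data.F
    rw [fc_ks]
    congr 1
    apply prod_congr rfl
    intro l _
    rw [Res_q]
    congr 1
    ring
  unfold kapM
  rw [h1]
  unfold Data.node sgM cpM ks
  have h3 : D.c j = 0 ∨ D.c j = 1 ∨ D.c j = 2 := by
    generalize D.c j = r
    revert r
    decide
  rcases h3 with h | h | h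
  · rw [h]
    simp
  · rw [h]
    simp
  · rw [h]
    simp

lemma F_ne {D : Data n} (ha : ∀ k, D.a k ≠ 0) {u v : ℤ}
    (h : ∀ j, D.α j * u + D.β j * v ≠ 0) (k : Fin 3) : D.F k u v ≠ 0 := by
  unfold Data.F
  exact mul_ne_zero (ha k) (prod_ne_zero_iff.2 fun j _ => pow_ne_zero _ (h j))

/-- the class of the partner does not contain the form -/
lemma node_ne {D : Data n} (hD : D.Good) (j : Fin n) : D.node j ≠ 0 := by
  have h1 : ∀ k : Fin 3, D.c j ≠ k → D.F k (-D.β j) (D.α j) ≠ 0 := by
    intro k hk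
    unfold Data.F
    refine mul_ne_zero (hD.a_ne k) (prod_ne_zero_iff.2 fun l hl => pow_ne_zero _ ?_)
    have hlj : l ≠ j := by
      rintro rfl
      unfold Data.cl at hl
      exact hk (mem_filter.1 hl).2
    have h2 := hD.nonprop l j hlj
    intro h3
    apply h2
    linear_combination -h3
  unfold Data.node
  by_cases h0 : D.c j = 0
  · rw [if_pos h0]
    exact neg_ne_zero.2 (h1 1 (by rw [h0]; decide))
  · rw [if_neg h0]
    by_cases h2 : D.c j = 1
    · rw [if_pos h2]
      exact neg_ne_zero.2 (h1 0 (by rw [h2]; decide))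
    · rw [if_neg h2]
      exact h1 0 h0

lemma coef_ne {D : Data n} (hD : D.Good) (j : Fin n) : D.α j ≠ 0 ∨ D.β j ≠ 0 := by
  have hb := hD.balance (D.c j)
  have hj : j ∈ D.cl (D.c j) := by
    unfold Data.cl
    exact mem_filter.2 ⟨mem_univ j, rfl⟩
  have h1 : 1 ≤ (D.cl (D.c j)).card := card_pos.2 ⟨j, hj⟩
  have hn : 1 < Fintype.card (Fin n) := by
    rw [Fintype.card_fin]
    omega
  obtain ⟨i, hi⟩ := Fintype.exists_ne_of_one_lt_card hn j
  by_contra hcon
  rw [not_or, not_not, not_not] at hcon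
  apply hD.nonprop i j hi
  rw [hcon.1, hcon.2]
  ring

end

/-- **Main theorem.** In a family with the conditions `Good`, the average of `2 ^ rank` over the
parameters of height at most `T` is bounded independently of `T`. -/
theorem result {n : ℕ} (D : Data n) (hD : D.Good) :
    ∃ C : ℝ, ∀ T : ℕ, ∑ t ∈ D.Par T, (2 : ℝ) ^ D.rank t ≤ C * (D.Par T).card := by
  classical
  obtain ⟨q, hq⟩ : ∃ q : ℕ, ∀ j, αq D q j ≠ 0 := by
    refine ⟨1 + ∑ j, (D.α j).natAbs, fun j => ?_⟩
    have h1 := single_le_sum (f := fun j => (D.α j).natAbs) (fun _ _ => Nat.zero_le _)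
      (mem_univ j)
    intro h2
    unfold αq at h2
    by_cases hβ : D.β j = 0
    · rw [hβ, mul_zero, add_zero] at h2
      rcases coef_ne hD j with h | h
      · exact h h2
      · exact h hβ
    · have h3 : (D.α j).natAbs = (1 + ∑ j, (D.α j).natAbs) * (D.β j).natAbs := by
        have h4 : D.α j = -(((1 + ∑ j, (D.α j).natAbs : ℕ) : ℤ) * D.β j) := by linarith
        have h5 := congrArg Int.natAbs h4
        rw [Int.natAbs_neg, Int.natAbs_mul, Int.natAbs_natCast] at h5
        exact h5
      have h4 : 1 ≤ (D.β j).natAbs := Int.natAbs_pos.2 hβ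
      have h5 : (1 + ∑ j, (D.α j).natAbs) * 1 ≤ (1 + ∑ j, (D.α j).natAbs) * (D.β j).natAbs :=
        Nat.mul_le_mul_left _ h4
      omega
  have hcls : ∀ j, ks D j ≠ 3 := by
    intro j
    unfold ks
    generalize D.c j = r
    revert r
    decide
  have hres : ∀ j l, j ≠ l → Pool.Agent.W262.RK.Res (αq D q) D.β j l ≠ 0 := by
    intro j l hjl
    rw [Res_q]
    exact sub_ne_zero.2 (hD.nonprop j l hjl)
  have hκ : ∀ (j : Fin n) (_ : Fin 3),
      Pool.Agent.W307.RT.kapM (ks D) D.a D.μ (αq D q) D.β j ≠ 0 := by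
    intro j _
    rw [kap_q]
    exact node_ne hD j
  have hNB := Pool.Agent.V7H45.CL.nb_cls (ks D) hcls
    (fun j _ => Pool.Agent.W307.RT.kapM (ks D) D.a D.μ (αq D q) D.β j) hκ
    (by rw [Fintype.card_fin]; exact hD.pos) (fun s => ⟨D.split s, fun j hj hsq => by
      unfold Data.split Data.cl
      rw [mem_filter, mem_filter]
      refine ⟨⟨mem_univ j, Fin.castSucc_injective _ hj⟩, ?_⟩
      rw [kap_q] at hsq
      exact hsq, by
      have h1 := hD.balance s
      have h2 : univ.filter (fun j => ks D j = s.castSucc) = D.cl s := fc_ks D s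
      rw [h2, Fintype.card_fin]
      exact h1⟩) (Fintype.card (Fin n))
  obtain ⟨C, hC0, hC⟩ := Pool.Agent.W307.RT.fam Pool.Agent.W307.RT.avg2 (ks D) D.a D.μ (αq D q) D.β
    hcls hD.a_ne hD.mu_pos hq hres (fun k => by rw [fc_ks]; exact hD.even k)
    (fun j => by rw [kap_q]; exact hD.mult j)
    (fun u v => by rw [FM_q, FM_q, FM_q]; exact hD.ident _ _) hNB q
    (fun u v => -D.F 0 u v) (fun u v => -D.F 1 u v)
    (fun u v => by rw [FM_q, neg_neg]) (fun u v => by rw [FM_q, neg_neg])
  have hPar : ∀ T : ℕ, D.Par T = (Pool.Agent.W307.RT.Box T).filter (fun t : ℤ × ℤ =>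
      IsCoprime t.1 t.2 ∧ -D.F 0 t.1 t.2 ≠ 0 ∧ -D.F 1 t.1 t.2 ≠ 0 ∧
        -D.F 0 t.1 t.2 ≠ -D.F 1 t.1 t.2) := by
    intro T
    unfold Data.Par Pool.Agent.W307.RT.Box
    apply filter_congr
    intro t _
    apply and_congr_right
    intro _
    have hid := hD.ident t.1 t.2
    constructor
    · intro h
      refine ⟨neg_ne_zero.2 (h 0), neg_ne_zero.2 (h 1), fun h' => h 2 ?_⟩
      rw [← hid]
      linarith
    · rintro ⟨h0, h1, h2⟩ k
      fin_cases k
      · exact neg_ne_zero.1 h0
      · exact neg_ne_zero.1 h1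
      · change D.F 2 t.1 t.2 ≠ 0
        rw [← hid]
        intro h3
        apply h2
        linarith
  have hsum : ∀ T : ℕ, 1 ≤ T → ∑ t ∈ D.Par T, (2 : ℝ) ^ D.rank t ≤ C * (T : ℝ) ^ 2 := by
    intro T hT
    refine le_trans (le_of_eq ?_) (hC T hT)
    rw [hPar T]
    apply sum_congr
    · exact filter_congr_decidable _ _ _
    · intro t _
      have e : Pool.Agent.W262.RK.EAB (-(-D.F 0 t.1 t.2)) (-(-D.F 1 t.1 t.2)) =
          curve (D.F 0 t.1 t.2) (D.F 1 t.1 t.2) := by
        rw [neg_neg, neg_neg]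
        rfl
      unfold Data.rank
      rw [← e]
  -- the number of the parameters
  have hlow : ∀ T : ℕ, 8 * n ≤ T → (T : ℝ) ^ 2 / 8 ≤ ((D.Par T).card : ℝ) := by
    intro T hT
    refine (Pool.Agent.V7H45.CP.count_forms D.α D.β (coef_ne hD) T hT).trans ?_
    have h1 : ((Pool.Agent.V7H45.CP.Sq T).filter (fun t => t.1.Coprime t.2 ∧
        ∀ j, D.α j * (t.1 : ℤ) + D.β j * (t.2 : ℤ) ≠ 0)).card ≤ (D.Par T).card := by
      apply card_le_card_of_injOn (fun t => ((t.1 : ℤ), (t.2 : ℤ)))
      · intro t ht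
        have h1 := mem_filter.1 (mem_coe.1 ht)
        unfold Pool.Agent.V7H45.CP.Sq at h1
        simp only [mem_product, mem_Ioc] at h1
        apply mem_coe.2
        unfold Data.Par
        rw [mem_filter, mem_product, mem_Icc, mem_Icc]
        refine ⟨⟨⟨?_, ?_⟩, ?_, ?_⟩, ?_, fun k => F_ne hD.a_ne h1.2.2 k⟩
        · simp only; omega
        · simp only; omega
        · simp only; omega
        · simp only; omega
        · exact Nat.isCoprime_iff_coprime.2 h1.2.1
      · rintro ⟨u, v⟩ _ ⟨u', v'⟩ _ h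
        simp only [Prod.mk.injEq, Nat.cast_inj] at h
        rw [h.1, h.2]
    exact_mod_cast h1
  refine ⟨8 * C + C * (8 * n : ℝ) ^ 2, fun T => ?_⟩
  rcases Nat.eq_zero_or_pos T with hT0 | hT0
  · have h1 : D.Par T = ∅ := by
      unfold Data.Par
      rw [filter_eq_empty_iff]
      intro t ht
      rw [hT0, mem_product, mem_Icc, mem_Icc] at ht
      have h1 : t.1 = 0 := by omega
      have h2 : t.2 = 0 := by omega
      rw [h1, h2]
      rintro ⟨h3, -⟩
      exact not_isCoprime_zero_zero h3
    rw [h1]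
    simp
  · have h1 := hsum T hT0
    have hC2 : 0 ≤ C * (8 * n : ℝ) ^ 2 := by positivity
    have hcard : (0 : ℝ) ≤ ((D.Par T).card : ℝ) := Nat.cast_nonneg _
    rcases Nat.lt_or_ge T (8 * n) with hlt | hge
    · rcases Nat.eq_zero_or_pos (D.Par T).card with h0 | h0
      · rw [card_eq_zero.1 h0]
        simp
      · have h2 : (1 : ℝ) ≤ ((D.Par T).card : ℝ) := by exact_mod_cast h0
        have h3 : (T : ℝ) ≤ 8 * n := by exact_mod_cast hlt.le
        calc _ ≤ C * (T : ℝ) ^ 2 := h1
          _ ≤ C * (8 * n : ℝ) ^ 2 := by gcongr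
          _ ≤ (C * (8 * n : ℝ) ^ 2) * (D.Par T).card := le_mul_of_one_le_right hC2 h2
          _ ≤ _ := mul_le_mul_of_nonneg_right (by linarith) hcard
    · have h2 := hlow T hge
      calc _ ≤ C * (T : ℝ) ^ 2 := h1
        _ = 8 * C * ((T : ℝ) ^ 2 / 8) := by ring
        _ ≤ 8 * C * (D.Par T).card := mul_le_mul_of_nonneg_left h2 (by positivity)
        _ ≤ _ := mul_le_mul_of_nonneg_right (by linarith) hcard

end Pool.Agent.Results.MP_788af2_nt.SplitFamiliesH45
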