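import Pool.Agent.V7H45.TM.Full

/-!
# All moments of `2 ^ rank` are bounded in thin families of quadratic twists

Let `E : y² = x (x - a) (x - b)` be an elliptic curve over `ℚ` with full rational 2-torsion and let
`D(t) = ∏ (γ j * t + δ j)` be a product of pairwise non-proportional linear forms. For every `k`
the average over the integers `|t| ≤ X` of `2 ^ (k * rank)` of the quadratic twist of `E` by `D(t)`
is bounded independently of `X`; the same holds for the product of `2 ^ rank` over several curves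
and several polynomials.
-/

namespace Pool.Agent.Results.MP_788af2_nt.TwistMomentsH45

open Finset

/-- the quadratic twist by `d` of the curve `y² = x (x - a) (x - b)` over `ℚ`: the curve
`y² = x (x - a d) (x - b d)` -/
def twist (a b d : ℤ) : WeierstrassCurve ℚ :=
  ⟨0, -(((a * d : ℤ) : ℚ) + ((b * d : ℤ) : ℚ)), 0, ((a * d : ℤ) : ℚ) * ((b * d : ℤ) : ℚ), 0⟩

/-- the rank of the group of rational points of the twist -/
noncomputable def rk (a b d : ℤ) : ℕ := Module.finrank ℤ (twist a b d).toAffine.Point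

/-- the `k`-th moment for one curve and one polynomial -/
theorem single {m : ℕ} (k : ℕ) (a b : ℤ) (ha : a ≠ 0) (hb : b ≠ 0) (hab : a ≠ b)
    (γ δ : Fin m → ℤ) (hγ : ∀ j, γ j ≠ 0) (hδ : ∀ j l, j ≠ l → γ j * δ l ≠ γ l * δ j) :
    ∃ C : ℝ, 0 ≤ C ∧ ∀ X : ℕ, 1 ≤ X → ∑ t ∈ Icc (-(X : ℤ)) X,
      ((2 : ℝ) ^ rk a b (∏ j, (γ j * t + δ j))) ^ k ≤ C * X :=
  Pool.Agent.V7H45.TM.full k a b ha hb hab γ δ hγ hδ

/-- a product of nonnegative numbers is at most the sum of the powers -/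
lemma prod_le_sum_pow {r : ℕ} (hr : 0 < r) (x : Fin r → ℝ) (hx : ∀ i, 0 ≤ x i) :
    ∏ i, x i ≤ ∑ i, x i ^ r := by
  have : Nonempty (Fin r) := ⟨⟨0, hr⟩⟩
  obtain ⟨i0, hi0⟩ := Finite.exists_max x
  calc ∏ i, x i ≤ ∏ _i : Fin r, x i0 := prod_le_prod (fun i _ => hx i) fun i _ => hi0 i
    _ = x i0 ^ r := by rw [prod_const, card_univ, Fintype.card_fin]
    _ ≤ ∑ i, x i ^ r := single_le_sum (f := fun i => x i ^ r)
        (fun i _ => pow_nonneg (hx i) r) (mem_univ i0)

/-- **All moments of `2 ^ rank` are bounded in thin families of quadratic twists.**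
Let `E i : y² = x (x - a i) (x - b i)`, `i < r`, be elliptic curves over `ℚ` with full rational
2-torsion (repetitions are allowed) and let `D i (t) = ∏ j, (γ i j * t + δ i j)` be products of
pairwise non-proportional linear forms. The average over `|t| ≤ X` of the product over `i` of
`2 ^ rank` of the quadratic twist of `E i` by `D i (t)` is bounded independently of `X`. For equal
curves and equal polynomials this is the `r`-th moment of `2 ^ rank`. -/
theorem result (r : ℕ) (a b : Fin r → ℤ) (m : Fin r → ℕ) (γ δ : ∀ i : Fin r, Fin (m i) → ℤ)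
    (ha : ∀ i, a i ≠ 0) (hb : ∀ i, b i ≠ 0) (hab : ∀ i, a i ≠ b i)
    (hγ : ∀ i j, γ i j ≠ 0) (hδ : ∀ i j l, j ≠ l → γ i j * δ i l ≠ γ i l * δ i j) :
    ∃ C : ℝ, ∀ X : ℕ, 1 ≤ X → ∑ t ∈ Icc (-(X : ℤ)) X,
      ∏ i, (2 : ℝ) ^ rk (a i) (b i) (∏ j, (γ i j * t + δ i j)) ≤ C * X := by
  rcases Nat.eq_zero_or_pos r with hr | hr
  · subst hr
    refine ⟨3, fun X hX => ?_⟩
    simp only [univ_eq_empty, prod_empty, sum_const, Int.card_Icc, nsmul_eq_mul, mul_one]
    have : ((X : ℤ) + 1 - -(X : ℤ)).toNat = 2 * X + 1 := by omega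
    rw [this]
    have hXr : (1 : ℝ) ≤ X := by exact_mod_cast hX
    push_cast
    linarith
  choose C hC0 hC using fun i => single r (a i) (b i) (ha i) (hb i) (hab i) (γ i) (δ i)
    (hγ i) (hδ i)
  refine ⟨∑ i, C i, fun X hX => ?_⟩
  calc ∑ t ∈ Icc (-(X : ℤ)) X, ∏ i, (2 : ℝ) ^ rk (a i) (b i) (∏ j, (γ i j * t + δ i j))
      ≤ ∑ t ∈ Icc (-(X : ℤ)) X,
          ∑ i, ((2 : ℝ) ^ rk (a i) (b i) (∏ j, (γ i j * t + δ i j))) ^ r :=
        sum_le_sum fun t _ => prod_le_sum_pow hr _ fun i => by positivity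
    _ = ∑ i, ∑ t ∈ Icc (-(X : ℤ)) X,
          ((2 : ℝ) ^ rk (a i) (b i) (∏ j, (γ i j * t + δ i j))) ^ r := sum_comm
    _ ≤ ∑ i, C i * X := sum_le_sum fun i _ => hC i X hX
    _ = (∑ i, C i) * X := by rw [sum_mul]

end Pool.Agent.Results.MP_788af2_nt.TwistMomentsH45
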