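import Pool.Agent.V7H54.W.Fam

/-!
# The average rank is bounded in every slice `A` = const of the family of all elliptic curves

`𝓕` is the family of the problem: `y² = x³ + A x + B` with `4 A³ + 27 B² ≠ 0` and no prime `p` with `p⁴ ∣ A` and
`p⁶ ∣ B`, with the height `max (4 |A|³, 27 B²)`.

Theorem. There is ONE constant `C` such that for every `X` and every `A` with `4 |A|³ ≤ X` the average of
`2 ^ rank`, hence of the rank, over the curves in `𝓕` of height at most `X` with THIS first coefficient `A` is at most
`C`. So the average rank is bounded over all the curves of height at most `X` in `𝓕` whose coefficient `A` lies in a set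
`𝒜`, for EVERY set `𝒜` of integers, however thin (one element, the primes, the values of a polynomial). Each slice
`A` = const, `4 |A|³ ≤ X`, has at least `√X / 42` of the about `X ^ (5/6)` curves.

More generally: for ALL integers `b`, `c` and all `T ≥ 1` the sum of `2 ^ rank` over all the `t` with `|t| ≤ T` for which
`y² = x³ + b x² + c x + t` is an elliptic curve is at most `C (T + |b|³ + |c| ^ (3/2))`, with an absolute constant `C`; so
the average in such a one-parameter family is at most `C'` absolute as soon as `T ≥ max (|b|³, |c| ^ (3/2))`.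

What was known: the theorem of Bhargava and Shankar for all the curves of height at most `X` (their theorem also
allows finitely or suitable infinitely many congruence conditions on `(A, B)`, which have positive density; a slice, or
a set of slices of density zero, is invisible there); for one-parameter families, quadratic twists (Heath-Brown, Kane,
Smith and others), the curves `y² = x³ + k` and cubic twists (Ruth, Alpoge-Bhargava-Shnidman), and families with full
rational 2-torsion (starting library, SplitFamiliesH45). Other families of this kind: to my knowledge only under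
the Riemann hypothesis and the conjecture of Birch and Swinnerton-Dyer (Silverman, Michel, Fouvry-Pomykala). This
hand-in replaces SliceAverageRankH54 (one slice, with a constant which depends on the slice).

The proof. Let `P = (r / s², u / s³)` be a point, `f_t = x³ + A x + t` irreducible, `θ` a root. In the ring `ℤ[θ]`, which need
not be maximal, the ideal `(u, r - s² θ)` is a lattice which is unimodular for the form `x y / (r - s² θ)`
(`M/LatP`). So one gets a pair of integral ternary quadratic forms, the first one of determinant `± 1`, and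
isotropic, because `r - s² θ` itself is an isotropic vector. The reduction theory of project PF gives a basis of a
sublattice of bounded index in which the first form is antidiagonal and the entries of the second are bounded
by `C B`, where `|A| ≤ B²`, `|t| ≤ B³`, with weights `4 ^ (-k)`, ..., `4 ^ k` in the cusp (`W/Bs`). The linear coefficient of the
cubic does not depend on `t`: this is the equation of a quadric in five variables, `r a e + 2 P b d + 3 r c² = - A r P²`,
and its integral points in the box and in the cusp are counted with the right order `B³`, uniformly in the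
constant term: fibration over `(a, b)`, a bound for the roots of `p c² ≡ M` modulo `g` which does not depend on `M`, and
Weyl sums for the short intervals (`W/Rt`, `W/Sw`, `W/Rg`, `W/Qc`, `W/Cn`, `A/`). The forms determine `r - s² θ` up to squares
(`N/SepN`), and this determines the point modulo `2 E_t(ℚ)` (`M/DescP`). The reducible `f_t` (at most `5 B` values of `t`)
have a rational point of order two; a descent with explicit square classes bounds `2 ^ rank` by
`O (B²)` (`M/RedA`, `M/RedP`, `M/RedC`). Mordell's theorem is taken from `Pool/Agent/H64R2/DD_MWK.lean`.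

Files `Pool/Agent/V7H54/A/`, `Pool/Agent/V7H54/N/`, `Pool/Agent/V7H54/M/` and `Pool/Agent/V7H54/W/` (helper54).
-/

set_option autoImplicit false
set_option linter.all false

open scoped Classical

namespace Pool.Agent.Results.MP_788af2_nt.UniformSliceRankH54

/-- The curve `y² = x³ + b x² + c x + t` over `ℚ`. -/
def Curve (b c t : ℤ) : WeierstrassCurve.Affine ℚ := ⟨0, b, 0, c, t⟩

/-- Its rank, the rank of the abelian group of the rational points. -/
noncomputable def rk (b c t : ℤ) : ℕ := Module.finrank ℤ (Curve b c t).Point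

/-- The pair `(A, B)`, that is, the curve `y² = x³ + A x + B`, is in the family of the problem. -/
def Family (A B : ℤ) : Prop :=
  4 * A ^ 3 + 27 * B ^ 2 ≠ 0 ∧ ¬ ∃ p : ℕ, p.Prime ∧ (p : ℤ) ^ 4 ∣ A ∧ (p : ℤ) ^ 6 ∣ B

/-- The height of `y² = x³ + A x + B`. -/
def height (A B : ℤ) : ℤ := max (4 * |A| ^ 3) (27 * B ^ 2)

/-- The curves of the family of height at most `X` whose coefficient `A` lies in `𝒜` (the height bounds `|B|` by
`X`). -/
noncomputable def Slices (X : ℕ) (𝒜 : Finset ℤ) : Finset (ℤ × ℤ) :=
  (𝒜 ×ˢ Finset.Icc (-(X : ℤ)) X).filter fun p => Family p.1 p.2 ∧ height p.1 p.2 ≤ X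

theorem mem_Slices (X : ℕ) (𝒜 : Finset ℤ) (A B : ℤ) :
    (A, B) ∈ Slices X 𝒜 ↔ A ∈ 𝒜 ∧ Family A B ∧ height A B ≤ X := by
  unfold Slices
  rw [Finset.mem_filter, Finset.mem_product, Finset.mem_Icc]
  constructor
  · rintro ⟨⟨h1, -⟩, h2, h3⟩
    exact ⟨h1, h2, h3⟩
  · rintro ⟨h1, h2, h3⟩
    refine ⟨⟨h1, ?_⟩, h2, h3⟩
    have h4 : 27 * B ^ 2 ≤ X := le_trans (le_max_right _ _) h3
    show -(X : ℤ) ≤ B ∧ B ≤ X
    rw [← abs_le]
    have h5 : |B| ≤ B ^ 2 := by
      rw [← sq_abs]
      have h6 := abs_nonneg B
      rcases eq_or_lt_of_le h6 with h7 | h7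
      · rw [← h7]
        norm_num
      · have : 1 ≤ |B| := h7
        nlinarith
    have h6 := sq_nonneg B
    linarith

theorem fib_eq (X : ℕ) (𝒜 : Finset ℤ) (A : ℤ) (hA : A ∈ 𝒜) (hX : 4 * |A| ^ 3 ≤ X) :
    (Slices X 𝒜).filter (fun p => p.1 = A) =
      (Pool.Agent.V7H54.W.slice X A).image (fun B => (A, B)) := by
  ext ⟨A', B⟩
  rw [Finset.mem_filter, mem_Slices, Finset.mem_image]
  simp only [Prod.mk.injEq]
  constructor
  · rintro ⟨⟨h1, h2, h3⟩, rfl⟩
    refine ⟨B, ?_, rfl, rfl⟩
    have h4 : (A', B) ∈ Slices X 𝒜 := (mem_Slices X 𝒜 A' B).2 ⟨h1, h2, h3⟩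
    unfold Slices at h4
    rw [Finset.mem_filter, Finset.mem_product] at h4
    unfold Pool.Agent.V7H54.W.slice
    exact Finset.mem_filter.2 ⟨h4.1.2, h2, le_trans (le_max_right _ _) h3⟩
  · rintro ⟨B', hB', rfl, rfl⟩
    unfold Pool.Agent.V7H54.W.slice at hB'
    rw [Finset.mem_filter] at hB'
    exact ⟨⟨hA, hB'.2.1, max_le hX hB'.2.2⟩, rfl⟩

theorem inj_pair (A : ℤ) : Function.Injective (fun B : ℤ => (A, B)) := fun _ _ h => (Prod.mk.inj h).2

/-- For all integers `b`, `c`, `t`, if the discriminant of `y² = x³ + b x² + c x + t` is not zero then its group of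
rational points is finitely generated (Mordell); and there is `C` such that
* for every `X` and every finite set `𝒜` of integers the average of `2 ^ rank` over the curves
  `y² = x³ + A x + B` in the family of the problem with height at most `X` and `A ∈ 𝒜` is at most `C`;
* for all integers `b`, `c` and all `T ≥ 1` the sum of `2 ^ rank` over all the integers `t` with `|t| ≤ T` for
  which `y² = x³ + b x² + c x + t` is an elliptic curve is at most `C (T + |b|³ + |c| ^ (3/2))`.
Moreover, if `X ≥ 27` and `4 |A|³ ≤ X` then there are at least `√X / 42` curves with this `A` in the first average. -/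
theorem result :
    (∀ b c t : ℤ, (Curve b c t).Δ ≠ 0 → Module.Finite ℤ (Curve b c t).Point) ∧
    (∃ C : ℝ,
      (∀ (X : ℕ) (𝒜 : Finset ℤ),
        ∑ p ∈ Slices X 𝒜, (2 : ℝ) ^ rk 0 p.1 p.2 ≤ C * (Slices X 𝒜).card) ∧
      (∀ (b c : ℤ) (T : ℕ), 1 ≤ T →
        ∑ t ∈ (Finset.Icc (-(T : ℤ)) T).filter (fun t => (Curve b c t).Δ ≠ 0),
          (2 : ℝ) ^ rk b c t ≤ C * (T + |(b : ℝ)| ^ 3 + √(|(c : ℝ)| ^ 3)))) ∧
    (∀ (X : ℕ) (A : ℤ), 27 ≤ X → 4 * |A| ^ 3 ≤ X → √(X : ℝ) ≤ 42 * (Slices X {A}).card) := by
  obtain ⟨C, hC, h⟩ := Pool.Agent.V7H54.W.gen_u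
  obtain ⟨C', hC', h'⟩ := Pool.Agent.V7H54.W.slice_u
  refine ⟨fun b c t h => Pool.Agent.V7H54.M.fg h, ⟨max C C', ?_, ?_⟩, ?_⟩
  · intro X 𝒜
    have hmap : ∀ p ∈ Slices X 𝒜, p.1 ∈ 𝒜 := by
      rintro ⟨A, B⟩ hp
      exact ((mem_Slices X 𝒜 A B).1 hp).1
    rw [← Finset.sum_fiberwise_of_maps_to hmap, Finset.card_eq_sum_card_fiberwise hmap]
    push_cast
    rw [Finset.mul_sum]
    refine Finset.sum_le_sum fun A hA => ?_
    by_cases hX : 4 * |A| ^ 3 ≤ X
    · rw [fib_eq X 𝒜 A hA hX, Finset.sum_image (fun x _ y _ h => inj_pair A h),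
        Finset.card_image_of_injective _ (inj_pair A)]
      refine (h' X A hX).trans ?_
      gcongr
      exact le_max_right _ _
    · have h1 : (Slices X 𝒜).filter (fun p => p.1 = A) = ∅ := by
        rw [Finset.filter_eq_empty_iff]
        rintro ⟨A', B⟩ hp hA'
        simp only at hA'
        subst hA'
        exact hX (le_trans (le_max_left _ _) ((mem_Slices X 𝒜 A' B).1 hp).2.2)
      rw [h1]
      simp
  · intro b c T hT
    refine (h b c T (by exact_mod_cast hT) _ fun t ht => ?_).trans ?_
    · rw [Finset.mem_filter, Finset.mem_Icc] at ht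
      refine ⟨?_, ht.2⟩
      have h1 : |t| ≤ (T : ℤ) := abs_le.2 ht.1
      exact_mod_cast h1
    · have h2 : 0 ≤ √(|(c : ℝ)| ^ 3) := Real.sqrt_nonneg _
      have h3 : 0 ≤ |(b : ℝ)| ^ 3 := by positivity
      gcongr
      exact le_max_left _ _
  · intro X A hX hA
    have h1 := fib_eq X {A} A (Finset.mem_singleton_self A) hA
    have h2 : (Slices X {A}).filter (fun p => p.1 = A) = Slices X {A} := by
      rw [Finset.filter_eq_self]
      rintro ⟨A', B⟩ hp
      exact Finset.mem_singleton.1 ((mem_Slices X {A} A' B).1 hp).1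
    rw [← h2, h1, Finset.card_image_of_injective _ (inj_pair A)]
    exact Pool.Agent.V7H54.W.slice_card X A hX

end Pool.Agent.Results.MP_788af2_nt.UniformSliceRankH54
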